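import Mathlib
import Pool.Agent.MP_521650_an.OneD

set_option autoImplicit false

open Finset Pool.Agent.MP_521650_an

namespace Pool.Agent.Results.MP_521650_an.AllExponents

/-- A finite family `φ` of self-maps of `ℝ^d` is an iterated function system: at least two maps,
each of them an injective contraction. -/
def IsIFS {d : ℕ} {ι : Type} [Fintype ι]
    (φ : ι → EuclideanSpace ℝ (Fin d) → EuclideanSpace ℝ (Fin d)) : Prop :=
  2 ≤ Fintype.card ι ∧ (∀ i, Function.Injective (φ i)) ∧
    ∀ i, ∃ K : NNReal, ContractingWith K (φ i)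

/-- `X` is the attractor: non-empty, compact and equal to the union of its images. -/
def IsAttractor {d : ℕ} {ι : Type}
    (φ : ι → EuclideanSpace ℝ (Fin d) → EuclideanSpace ℝ (Fin d))
    (X : Set (EuclideanSpace ℝ (Fin d))) : Prop :=
  X.Nonempty ∧ IsCompact X ∧ X = ⋃ i, φ i '' X

/-- `wordMap φ (a₁ ⋯ aₙ) = φ a₁ ∘ ⋯ ∘ φ aₙ`. -/
def wordMap {d : ℕ} {ι : Type}
    (φ : ι → EuclideanSpace ℝ (Fin d) → EuclideanSpace ℝ (Fin d)) :
    List ι → EuclideanSpace ℝ (Fin d) → EuclideanSpace ℝ (Fin d)
  | [], x => x
  | i :: a, x => φ i (wordMap φ a x)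

/-- `W_s(z)`: the points `x` with `|x - φ_a(z)| ≤ Diam(φ_a(X))^s` for infinitely many words `a`. -/
def W {d : ℕ} {ι : Type}
    (φ : ι → EuclideanSpace ℝ (Fin d) → EuclideanSpace ℝ (Fin d))
    (X : Set (EuclideanSpace ℝ (Fin d))) (s : ℝ) (z : EuclideanSpace ℝ (Fin d)) :
    Set (EuclideanSpace ℝ (Fin d)) :=
  {x | {a : List ι | dist x (wordMap φ a z) ≤ Metric.diam (wordMap φ a '' X) ^ s}.Infinite}

/-- the product maps. -/
noncomputable def phi (d m : ℕ) (σ : Fin d → Al m) (x : EuclideanSpace ℝ (Fin d)) :
    EuclideanSpace ℝ (Fin d) := WithLp.toLp 2 fun j => f1 m (σ j) (x j)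

/-- the cube. -/
noncomputable def cube (d m : ℕ) : Set (EuclideanSpace ℝ (Fin d)) :=
  {x | ∀ j, x j ∈ Set.Icc 0 (LL m)}

lemma phi_apply (d m : ℕ) (σ : Fin d → Al m) (x : EuclideanSpace ℝ (Fin d)) (j : Fin d) :
    phi d m σ x j = f1 m (σ j) (x j) := rfl

lemma phi_dist (d m : ℕ) (σ : Fin d → Al m) (x y : EuclideanSpace ℝ (Fin d)) :
    dist (phi d m σ x) (phi d m σ y) = dist x y / 2 := by
  rw [EuclideanSpace.dist_eq, EuclideanSpace.dist_eq]
  have h1 : ∀ j, dist (phi d m σ x j) (phi d m σ y j) ^ 2 = (1 / 4) * dist (x j) (y j) ^ 2 := by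
    intro j
    rw [phi_apply, phi_apply, Real.dist_eq, Real.dist_eq, f1_dist]
    ring
  simp_rw [h1]
  rw [← mul_sum, Real.sqrt_mul (by norm_num)]
  have : Real.sqrt (1 / 4) = 1 / 2 := by
    rw [show (1 / 4 : ℝ) = (1 / 2) ^ 2 by norm_num, Real.sqrt_sq (by norm_num)]
  rw [this]
  ring

lemma word_dist (d m : ℕ) (a : List (Fin d → Al m)) (x y : EuclideanSpace ℝ (Fin d)) :
    dist (wordMap (phi d m) a x) (wordMap (phi d m) a y) = dist x y / 2 ^ a.length := by
  induction a with
  | nil => simp [wordMap]
  | cons i a ih =>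
    simp only [wordMap, List.length_cons]
    rw [phi_dist, ih, pow_succ, div_div]

lemma cube_isCompact (d m : ℕ) : IsCompact (cube d m) := by
  have h1 : IsCompact (Set.pi Set.univ (fun _ : Fin d => Set.Icc (0 : ℝ) (LL m))) :=
    isCompact_univ_pi fun _ => isCompact_Icc
  have h2 := h1.image (PiLp.continuous_toLp 2 (fun _ : Fin d => ℝ))
  convert h2 using 1
  ext x
  simp only [cube, Set.mem_image, Set.mem_pi, Set.mem_univ, forall_true_left]
  constructor
  · intro hx
    exact ⟨fun j => x j, hx, rfl⟩
  · rintro ⟨y, hy, rfl⟩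
    exact hy

lemma cube_eq (d m : ℕ) : cube d m = ⋃ σ, phi d m σ '' cube d m := by
  ext x
  simp only [Set.mem_iUnion, Set.mem_image]
  constructor
  · intro hx
    choose σ y hy hy' using fun j => f1_surj m (hx j)
    refine ⟨σ, WithLp.toLp 2 y, hy, ?_⟩
    ext j
    exact hy' j
  · rintro ⟨σ, y, hy, rfl⟩ j
    rw [phi_apply]
    exact f1_mem m _ (hy j)

lemma word_mem (d m : ℕ) (a : List (Fin d → Al m)) {x : EuclideanSpace ℝ (Fin d)}
    (hx : x ∈ cube d m) : wordMap (phi d m) a x ∈ cube d m := by
  induction a with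
  | nil => exact hx
  | cons i a ih => exact fun j => f1_mem m _ (ih j)

/-- words of equal length in the coordinates combine to a word. -/
lemma combine (d m n : ℕ) (A : Fin d → List (Al m)) (hA : ∀ j, (A j).length = n) :
    ∃ a : List (Fin d → Al m), a.length = n ∧
      ∀ x j, wordMap (phi d m) a x j = w1 m (A j) (x j) := by
  induction n generalizing A with
  | zero =>
    refine ⟨[], rfl, fun x j => ?_⟩
    have : A j = [] := List.length_eq_zero_iff.1 (hA j)
    rw [this]; rfl
  | succ n ih =>
    have h1 : ∀ j, ∃ i b, A j = i :: b ∧ b.length = n := by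
      intro j
      have := hA j
      cases h : A j with
      | nil => rw [h] at this; simp at this
      | cons i b => rw [h] at this; exact ⟨i, b, rfl, by simpa using this⟩
    choose i b hib hb using h1
    obtain ⟨a, ha, ha'⟩ := ih b hb
    refine ⟨i :: a, by simp [ha], fun x j => ?_⟩
    simp only [wordMap, phi_apply]
    rw [ha', hib j]
    rfl

lemma zero_mem_cube (d m : ℕ) : (0 : EuclideanSpace ℝ (Fin d)) ∈ cube d m := fun j => by
  have := LL_ge m
  simp only [PiLp.zero_apply, Set.mem_Icc, le_refl, true_and]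
  linarith

/-- a second point of the cube at distance at least one from the origin. -/
lemma far_point (d m : ℕ) (hd : 1 ≤ d) :
    ∃ p ∈ cube d m, 1 ≤ dist p (0 : EuclideanSpace ℝ (Fin d)) := by
  have := LL_ge m
  refine ⟨EuclideanSpace.single ⟨0, hd⟩ 1, fun j => ?_, ?_⟩
  · rw [EuclideanSpace.single_apply]
    split_ifs
    · exact ⟨by norm_num, by linarith⟩
    · exact ⟨le_rfl, by linarith⟩
  · rw [dist_zero_right, EuclideanSpace.norm_single]
    simp

lemma diam_ge (d m : ℕ) (hd : 1 ≤ d) (a : List (Fin d → Al m)) :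
    1 / 2 ^ a.length ≤ Metric.diam (wordMap (phi d m) a '' cube d m) := by
  obtain ⟨p, hp, hp'⟩ := far_point d m hd
  have hb : Bornology.IsBounded (wordMap (phi d m) a '' cube d m) := by
    apply (cube_isCompact d m).isBounded.subset
    rintro _ ⟨x, hx, rfl⟩
    exact word_mem d m a hx
  calc 1 / 2 ^ a.length ≤ dist p (0 : EuclideanSpace ℝ (Fin d)) / 2 ^ a.length := by gcongr
    _ = dist (wordMap (phi d m) a p) (wordMap (phi d m) a 0) := (word_dist d m a p 0).symm
    _ ≤ _ := Metric.dist_le_diam_of_mem hb (Set.mem_image_of_mem _ hp)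
      (Set.mem_image_of_mem _ (zero_mem_cube d m))

lemma diam_le (d m : ℕ) (a : List (Fin d → Al m)) :
    Metric.diam (wordMap (phi d m) a '' cube d m) ≤ Metric.diam (cube d m) / 2 ^ a.length := by
  apply Metric.diam_le_of_forall_dist_le (by positivity)
  rintro _ ⟨x, hx, rfl⟩ _ ⟨y, hy, rfl⟩
  rw [word_dist]
  gcongr
  exact Metric.dist_le_diam_of_mem (cube_isCompact d m).isBounded hx hy

/-- For every dimension `d ≥ 1` and every exponent `s > 1` there is an iterated function system
on `ℝ^d`, consisting of similarities of ratio `1/2`, with attractor `X` (a non-degenerate cube) and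
a point `z ∈ X` such that every point `x` of `X` satisfies `|x - φ_a(z)| ≤ Diam(φ_a(X))^s` for
infinitely many words `a`, and no other point does: `W_s(z) = X`. -/
theorem result (d : ℕ) (hd : 1 ≤ d) (s : ℝ) (hs : 1 < s) :
    ∃ (ι : Type) (_ : Fintype ι)
      (φ : ι → EuclideanSpace ℝ (Fin d) → EuclideanSpace ℝ (Fin d))
      (X : Set (EuclideanSpace ℝ (Fin d))) (z : EuclideanSpace ℝ (Fin d)),
      IsIFS φ ∧ (∀ i x y, dist (φ i x) (φ i y) = dist x y / 2) ∧
      IsAttractor φ X ∧ X.Nontrivial ∧ z ∈ X ∧ W φ X s z = X := by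
  obtain ⟨m, hm⟩ := exists_nat_ge s
  refine ⟨Fin d → Al m, inferInstance, phi d m, cube d m, 0, ⟨?_, ?_, ?_⟩, phi_dist d m,
    ⟨⟨0, zero_mem_cube d m⟩, cube_isCompact d m, cube_eq d m⟩, ?_, zero_mem_cube d m, ?_⟩
  · -- at least two maps
    have : Nontrivial (Fin d → Al m) := by
      refine ⟨⟨fun _ => none, fun _ => zl m, fun h => ?_⟩⟩
      have := congrFun h ⟨0, hd⟩
      simp [zl] at this
    exact Fintype.one_lt_card
  · intro σ x y hxy
    have h1 := phi_dist d m σ x y
    rw [hxy, dist_self] at h1
    have : dist x y = 0 := by linarith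
    exact dist_eq_zero.1 this
  · intro σ
    refine ⟨1 / 2, ?_, ?_⟩
    · rw [← NNReal.coe_lt_coe]; norm_num
    · refine LipschitzWith.of_dist_le_mul fun x y => ?_
      rw [phi_dist]
      push_cast
      linarith
  · obtain ⟨p, hp, hp'⟩ := far_point d m hd
    refine ⟨p, hp, 0, zero_mem_cube d m, fun h => ?_⟩
    rw [h, dist_self] at hp'
    linarith
  · apply Set.Subset.antisymm
    · -- limit points of the cube are in the cube
      intro x hx
      rw [← (cube_isCompact d m).isClosed.closure_eq, Metric.mem_closure_iff]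
      intro ε hε
      -- only finitely many words of bounded length
      have hlen : ∀ n : ℕ, ∃ a : List (Fin d → Al m), n ≤ a.length ∧
          dist x (wordMap (phi d m) a 0)
            ≤ Metric.diam (wordMap (phi d m) a '' cube d m) ^ s := by
        intro n
        by_contra hcon
        push Not at hcon
        apply hx
        refine Set.Finite.subset (List.finite_length_lt (Fin d → Al m) n) fun a ha => ?_
        change a.length < n
        by_contra h
        push Not at h
        exact absurd ha (not_le.2 (hcon a h))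
      have hlim : Filter.Tendsto (fun n : ℕ => (Metric.diam (cube d m) / 2 ^ n) ^ s)
          Filter.atTop (nhds 0) := by
        have h1 : Filter.Tendsto (fun n : ℕ => Metric.diam (cube d m) / 2 ^ n)
            Filter.atTop (nhds 0) := by
          have := (tendsto_pow_atTop_nhds_zero_of_lt_one (r := (1 / 2 : ℝ)) (by norm_num)
            (by norm_num)).const_mul (Metric.diam (cube d m))
          simp only [mul_zero, one_div, inv_pow] at this
          simpa [div_eq_mul_inv] using this
        have h2 := h1.rpow_const (p := s) (Or.inr (by linarith))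
        rwa [Real.zero_rpow (by linarith)] at h2
      obtain ⟨n, hn⟩ := ((hlim.eventually (gt_mem_nhds hε)).exists_forall_of_atTop)
      obtain ⟨a, ha, ha'⟩ := hlen n
      refine ⟨_, word_mem d m a (zero_mem_cube d m), lt_of_le_of_lt ha' ?_⟩
      refine lt_of_le_of_lt ?_ (hn a.length ha)
      exact Real.rpow_le_rpow Metric.diam_nonneg (diam_le d m a) (by linarith)
    · -- every point of the cube is well approximable
      intro x hx
      choose K hK using fun j => good m (x j) (hx j)
      set K' := ∑ j, K j with hK'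
      have hKle : ∀ j, K j ≤ K' := fun j =>
        Finset.single_le_sum (f := K) (fun i _ => Nat.zero_le _) (Finset.mem_univ j)
      -- words along the special levels
      have hword : ∀ k, ∃ a : List (Fin d → Al m), a.length = nn m k + K' ∧
          dist x (wordMap (phi d m) a 0) ≤ Real.sqrt d * (2 / ((2 : ℝ) ^ nn m k) ^ (m + 1)) := by
        intro k
        choose A hA hA' using fun j => hK j K' (hKle j) k
        obtain ⟨a, ha, ha'⟩ := combine d m _ A hA
        refine ⟨a, ha, ?_⟩
        rw [EuclideanSpace.dist_eq]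
        have h1 : ∑ j, dist (x j) (wordMap (phi d m) a 0 j) ^ 2
            ≤ ∑ _j : Fin d, (2 / ((2 : ℝ) ^ nn m k) ^ (m + 1)) ^ 2 := by
          refine sum_le_sum fun j _ => ?_
          rw [ha', Real.dist_eq]
          exact pow_le_pow_left₀ (abs_nonneg _) (hA' j) 2
        refine (Real.sqrt_le_sqrt h1).trans ?_
        rw [sum_const, card_univ, Fintype.card_fin, nsmul_eq_mul, Real.sqrt_mul (by positivity),
          Real.sqrt_sq (by positivity)]
      choose a ha ha' using hword
      -- the estimate holds for all large `k`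
      have hev : ∀ᶠ k in Filter.atTop, dist x (wordMap (phi d m) (a k) 0)
          ≤ Metric.diam (wordMap (phi d m) (a k) '' cube d m) ^ s := by
        have h1 : Filter.Tendsto (fun k => (2 : ℝ) ^ nn m k) Filter.atTop Filter.atTop :=
          (tendsto_pow_atTop_atTop_of_one_lt (by norm_num)).comp
            (nn_strictMono m).tendsto_atTop
        filter_upwards [h1.eventually_ge_atTop (Real.sqrt d * 2 * ((2 : ℝ) ^ K') ^ s)] with k hk
        refine (ha' k).trans ?_
        have h2 : (1 / 2 ^ (a k).length : ℝ) ^ s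
            ≤ Metric.diam (wordMap (phi d m) (a k) '' cube d m) ^ s :=
          Real.rpow_le_rpow (by positivity) (diam_ge d m hd (a k)) (by linarith)
        refine le_trans ?_ h2
        rw [ha k]
        set N : ℝ := (2 : ℝ) ^ nn m k with hN
        have hN1 : 1 ≤ N := one_le_pow₀ (by norm_num)
        have hNpos : 0 < N := by positivity
        have e1 : (1 / 2 ^ (nn m k + K') : ℝ) ^ s = 1 / (N ^ s * ((2 : ℝ) ^ K') ^ s) := by
          rw [pow_add, Real.div_rpow (by norm_num) (by positivity), Real.one_rpow,
            Real.mul_rpow (by positivity) (by positivity)]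
        rw [e1, ← mul_div_assoc, div_le_div_iff₀ (by positivity) (by positivity), one_mul]
        have e2 : N ^ s ≤ N ^ m := by
          rw [← Real.rpow_natCast]
          exact Real.rpow_le_rpow_of_exponent_le hN1 hm
        calc Real.sqrt d * 2 * (N ^ s * ((2 : ℝ) ^ K') ^ s)
            = N ^ s * (Real.sqrt d * 2 * ((2 : ℝ) ^ K') ^ s) := by ring
          _ ≤ N ^ m * N := mul_le_mul e2 hk (by positivity) (by positivity)
          _ = N ^ (m + 1) := (pow_succ N m).symm
      -- infinitely many words
      have hinj : Function.Injective a := by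
        intro k l hkl
        have h1 : nn m k + K' = nn m l + K' := by rw [← ha k, ← ha l, hkl]
        exact (nn_strictMono m).injective (by omega)
      obtain ⟨k0, hk0⟩ := hev.exists_forall_of_atTop
      refine Set.Infinite.mono (s := a '' Set.Ici k0) ?_
        ((Set.Ici_infinite k0).image hinj.injOn)
      rintro _ ⟨k, hk, rfl⟩
      exact hk0 k hk

end Pool.Agent.Results.MP_521650_an.AllExponents
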